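import Mathlib
import Pool.Agent.H.MP_7e9602_ag.Geo

namespace Pool.Agent.Results.MP_7e9602_ag.NotProgressions

open MvPolynomial Sum

/-- rational points of `P^4 × P^1` -/
abbrev Pt := Projectivization ℚ (Fin 5 → ℚ) × Projectivization ℚ (Fin 2 → ℚ)

/-- bihomogeneous of bidegree `d` in the two groups of coordinates -/
def BiHom (F : MvPolynomial (Fin 5 ⊕ Fin 2) ℚ) (d : ℕ × ℕ) : Prop :=
  IsWeightedHomogeneous (Sum.elim (fun _ => (1, 0)) (fun _ => (0, 1))) F d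

/-- value of a polynomial at chosen homogeneous coordinates of a point -/
noncomputable def ev (p : Pt) (F : MvPolynomial (Fin 5 ⊕ Fin 2) ℚ) : ℚ :=
  aeval (Sum.elim p.1.rep p.2.rep) F

/-- on the rational points of `V(Φ)`, `φ` is the morphism `V(Φ) → V(Φ)` given by forms `G` whose
two groups have bidegrees `d` and `e` and have no common zero on `V(Φ)` over the algebraic
closure -/
def IsMor (Φ : MvPolynomial (Fin 5 ⊕ Fin 2) ℚ) (d e : ℕ × ℕ) (φ : Pt → Pt) : Prop :=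
  ∃ G : Fin 5 ⊕ Fin 2 → MvPolynomial (Fin 5 ⊕ Fin 2) ℚ,
    (∀ i, BiHom (G (inl i)) d) ∧ (∀ j, BiHom (G (inr j)) e) ∧
    (∀ v : Fin 5 ⊕ Fin 2 → AlgebraicClosure ℚ, (fun i => v (inl i)) ≠ 0 →
      (fun j => v (inr j)) ≠ 0 → aeval v Φ = 0 →
        (fun i => aeval v (G (inl i))) ≠ 0 ∧ (fun j => aeval v (G (inr j))) ≠ 0 ∧
          aeval (fun s => aeval v (G s)) Φ = 0) ∧
    ∀ p : Pt, ev p Φ = 0 → ∃ h1 h2, φ p =
      (Projectivization.mk ℚ (fun i => ev p (G (inl i))) h1,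
        Projectivization.mk ℚ (fun j => ev p (G (inr j))) h2)

open Pool.Agent.H.MP_7e9602_ag in
theorem result : ∃ (Φ : MvPolynomial (Fin 5 ⊕ Fin 2) ℚ) (f g : Pt → Pt) (α : Pt),
    BiHom Φ (2, 1) ∧ Irreducible (MvPolynomial.map (algebraMap ℚ (AlgebraicClosure ℚ)) Φ) ∧
    IsMor 0 (2, 0) (0, 2) f ∧ IsMor Φ (0, 1) (0, 0) g ∧
    ¬ ∃ A : Finset (ℕ × ℕ), ∀ n : ℕ,
      (∃ z : Pt, ev z Φ = 0 ∧ f^[n] α = g z) ↔ ∃ c ∈ A, ∃ k : ℕ, n = c.1 + k * c.2 := by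
  refine ⟨Phi ℚ, ff, gg, pt (6 / 5), Phi_hom, ?_, ?_, ?_, ?_⟩
  · rw [map_Phi]
    exact irr_Phi _
  · exact ⟨FF, FF_l, FF_r, fun v h1 h2 _ => ⟨FF_l_ne v h1, FF_r_ne v h2, map_zero _⟩,
      fun p _ => ⟨_, _, rfl⟩⟩
  · exact ⟨GG, GG_l, GG_r, fun v _ h2 _ => ⟨GG_l_ne v h2, GG_r_ne v, GG_Phi v⟩,
      fun p _ => ⟨_, _, rfl⟩⟩
  · rintro ⟨A, hA⟩
    refine not_aps ⟨A, fun n => ?_⟩
    rw [← hA, iter]
    exact (val _).symm

end Pool.Agent.Results.MP_7e9602_ag.NotProgressions
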